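import Mathlib
import Pool.Agent.H27.G.R_seed8.H307R2.OP.DefsC
import Pool.Agent.H27.G.R_seed8.H95R2.Leh.ApSieve

set_option autoImplicit false

/-!
# Brun-Titchmarsh inequality with the constant 9/2
-/

namespace Pool.Agent.H307R2.OP

open Finset Pool.Agent.Helper923.PPS

namespace BT4P

/-- reciprocals of the numbers up to `x` with all prime factors in `P` -/
noncomputable def SS (P : Finset ℕ) (x : ℕ) : ℝ :=
  ∑ n ∈ (Finset.Icc 1 x).filter (fun n => n.primeFactors ⊆ P), (n : ℝ)⁻¹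

/-- reciprocals of the totients of the squarefree numbers up to `x` with all prime factors in `P` -/
noncomputable def GG (P : Finset ℕ) (x : ℕ) : ℝ :=
  ∑ l ∈ (Finset.Icc 1 x).filter (fun l => Squarefree l ∧ l.primeFactors ⊆ P),
    ((Nat.totient l : ℕ) : ℝ)⁻¹

theorem GG_mono (P : Finset ℕ) {x y : ℕ} (h : x ≤ y) : GG P x ≤ GG P y := by
  unfold GG
  refine Finset.sum_le_sum_of_subset_of_nonneg ?_ fun _ _ _ => by positivity
  intro l hl
  simp only [Finset.mem_filter, Finset.mem_Icc] at hl ⊢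
  exact ⟨⟨hl.1.1, hl.1.2.trans h⟩, hl.2⟩

theorem SS_insert {P : Finset ℕ} {p : ℕ} (hp : p.Prime) (hpP : p ∉ P) (x : ℕ) :
    SS (insert p P) x = SS P x + (p : ℝ)⁻¹ * SS (insert p P) (x / p) := by
  classical
  unfold SS
  rw [← Finset.sum_filter_add_sum_filter_not
    ((Finset.Icc 1 x).filter (fun n => n.primeFactors ⊆ insert p P)) (fun n => ¬ p ∣ n)]
  congr 1
  · apply Finset.sum_congr _ fun _ _ => rfl
    ext n
    simp only [Finset.mem_filter, Finset.mem_Icc]
    constructor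
    · rintro ⟨⟨h1, h2⟩, h3⟩
      refine ⟨h1, fun r hr => ?_⟩
      rcases Finset.mem_insert.1 (h2 hr) with h | h
      · subst h
        exact absurd (Nat.dvd_of_mem_primeFactors hr) h3
      · exact h
    · rintro ⟨h1, h2⟩
      refine ⟨⟨h1, h2.trans (Finset.subset_insert _ _)⟩, fun h => hpP (h2 ?_)⟩
      exact Nat.mem_primeFactors.2 ⟨hp, h, by omega⟩
  · rw [Finset.mul_sum]
    have h3 : ((Finset.Icc 1 x).filter (fun n => n.primeFactors ⊆ insert p P)).filter
        (fun n => ¬ ¬ p ∣ n) =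
        ((Finset.Icc 1 (x / p)).filter (fun n => n.primeFactors ⊆ insert p P)).image
          (fun m => p * m) := by
      ext n
      simp only [Finset.mem_filter, Finset.mem_Icc, Finset.mem_image, not_not]
      constructor
      · rintro ⟨⟨⟨h1, h2⟩, h4⟩, m, rfl⟩
        have hm : 0 < m := by
          rcases Nat.eq_zero_or_pos m with h | h
          · subst h; simp at h1
          · exact h
        refine ⟨m, ⟨⟨hm, ?_⟩, ?_⟩, rfl⟩
        · rw [Nat.le_div_iff_mul_le hp.pos, mul_comm]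
          exact h2
        · rw [Nat.primeFactors_mul hp.ne_zero hm.ne'] at h4
          exact Finset.union_subset_right h4
      · rintro ⟨m, ⟨⟨h1, h2⟩, h4⟩, rfl⟩
        refine ⟨⟨⟨Nat.mul_pos hp.pos h1, ?_⟩, ?_⟩, dvd_mul_right _ _⟩
        · rw [Nat.le_div_iff_mul_le hp.pos, mul_comm] at h2
          exact h2
        · rw [Nat.primeFactors_mul hp.ne_zero (by omega), hp.primeFactors]
          exact Finset.union_subset (by simp) h4
    rw [h3, Finset.sum_image (by
      intro a _ b _ hab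
      exact Nat.eq_of_mul_eq_mul_left hp.pos hab)]
    apply Finset.sum_congr rfl
    intro m _
    push_cast
    rw [mul_inv]

theorem GG_insert {P : Finset ℕ} {p : ℕ} (hp : p.Prime) (hpP : p ∉ P) (x : ℕ) :
    GG (insert p P) x = GG P x + ((p : ℝ) - 1)⁻¹ * GG P (x / p) := by
  classical
  unfold GG
  rw [← Finset.sum_filter_add_sum_filter_not
    ((Finset.Icc 1 x).filter (fun l => Squarefree l ∧ l.primeFactors ⊆ insert p P))
    (fun n => ¬ p ∣ n)]
  congr 1
  · apply Finset.sum_congr _ fun _ _ => rfl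
    ext n
    simp only [Finset.mem_filter, Finset.mem_Icc]
    constructor
    · rintro ⟨⟨h1, h0, h2⟩, h3⟩
      refine ⟨h1, h0, fun r hr => ?_⟩
      rcases Finset.mem_insert.1 (h2 hr) with h | h
      · subst h
        exact absurd (Nat.dvd_of_mem_primeFactors hr) h3
      · exact h
    · rintro ⟨h1, h0, h2⟩
      refine ⟨⟨h1, h0, h2.trans (Finset.subset_insert _ _)⟩, fun h => hpP (h2 ?_)⟩
      exact Nat.mem_primeFactors.2 ⟨hp, h, by omega⟩
  · rw [Finset.mul_sum]
    have h3 : ((Finset.Icc 1 x).filter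
        (fun l => Squarefree l ∧ l.primeFactors ⊆ insert p P)).filter (fun n => ¬ ¬ p ∣ n) =
        ((Finset.Icc 1 (x / p)).filter (fun l => Squarefree l ∧ l.primeFactors ⊆ P)).image
          (fun m => p * m) := by
      ext n
      simp only [Finset.mem_filter, Finset.mem_Icc, Finset.mem_image, not_not]
      constructor
      · rintro ⟨⟨⟨h1, h2⟩, h5, h4⟩, m, rfl⟩
        have hm : 0 < m := by
          rcases Nat.eq_zero_or_pos m with h | h
          · subst h; simp at h1
          · exact h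
        have hcop : Nat.Coprime p m := Nat.coprime_of_squarefree_mul h5
        refine ⟨m, ⟨⟨hm, ?_⟩, h5.of_mul_right, ?_⟩, rfl⟩
        · rw [Nat.le_div_iff_mul_le hp.pos, mul_comm]
          exact h2
        · rw [Nat.primeFactors_mul hp.ne_zero hm.ne'] at h4
          intro r hr
          rcases Finset.mem_insert.1 (h4 (Finset.mem_union_right _ hr)) with h | h
          · subst h
            exact absurd (Nat.dvd_of_mem_primeFactors hr) ((hp.coprime_iff_not_dvd).1 hcop)
          · exact h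
      · rintro ⟨m, ⟨⟨h1, h2⟩, h5, h4⟩, rfl⟩
        have hpm : ¬ p ∣ m := fun h => hpP (h4 (Nat.mem_primeFactors.2 ⟨hp, h, by omega⟩))
        refine ⟨⟨⟨Nat.mul_pos hp.pos h1, ?_⟩, ?_, ?_⟩, dvd_mul_right _ _⟩
        · rw [Nat.le_div_iff_mul_le hp.pos, mul_comm] at h2
          exact h2
        · rw [Nat.squarefree_mul ((hp.coprime_iff_not_dvd).2 hpm)]
          exact ⟨hp.squarefree, h5⟩
        · rw [Nat.primeFactors_mul hp.ne_zero (by omega), hp.primeFactors]
          exact Finset.union_subset (by simp) (h4.trans (Finset.subset_insert _ _))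
    rw [h3, Finset.sum_image (by
      intro a _ b _ hab
      exact Nat.eq_of_mul_eq_mul_left hp.pos hab)]
    apply Finset.sum_congr rfl
    intro m hm
    simp only [Finset.mem_filter, Finset.mem_Icc] at hm
    have hpm : ¬ p ∣ m := fun h => hpP (hm.2.2 (Nat.mem_primeFactors.2 ⟨hp, h, by omega⟩))
    rw [Nat.totient_mul ((hp.coprime_iff_not_dvd).2 hpm), Nat.totient_prime hp]
    push_cast
    rw [Nat.cast_sub hp.one_lt.le, mul_inv]
    simp

theorem SS_le_GG (P : Finset ℕ) (hP : ∀ p ∈ P, p.Prime) : ∀ x, SS P x ≤ GG P x := by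
  classical
  induction P using Finset.induction_on with
  | empty =>
    intro x
    unfold SS GG
    apply le_of_eq
    have h1 : (Finset.Icc 1 x).filter (fun n => n.primeFactors ⊆ ∅) =
        (Finset.Icc 1 x).filter (fun n => Squarefree n ∧ n.primeFactors ⊆ ∅) := by
      ext n
      simp only [Finset.mem_filter, Finset.mem_Icc, Finset.subset_empty, Nat.primeFactors_eq_empty]
      constructor
      · rintro ⟨h1, h2⟩
        refine ⟨h1, ?_, h2⟩
        rcases h2 with h | h
        · omega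
        · rw [h]; exact squarefree_one
      · rintro ⟨h1, _, h2⟩
        exact ⟨h1, h2⟩
    rw [← h1]
    apply Finset.sum_congr rfl
    intro n hn
    simp only [Finset.mem_filter, Finset.mem_Icc, Finset.subset_empty,
      Nat.primeFactors_eq_empty] at hn
    have : n = 1 := by omega
    subst this
    simp
  | @insert p P hpP ih =>
    have hp : p.Prime := hP p (Finset.mem_insert_self _ _)
    have ih' := ih fun r hr => hP r (Finset.mem_insert_of_mem hr)
    intro x
    induction x using Nat.strong_induction_on with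
    | _ x ihx =>
      rcases Nat.eq_zero_or_pos x with h0 | h0
      · subst h0
        unfold SS GG
        simp
      · have h1 := ihx (x / p) (Nat.div_lt_self h0 hp.one_lt)
        rw [SS_insert hp hpP, GG_insert hp hpP]
        rw [GG_insert hp hpP] at h1
        have h2 := GG_mono P (Nat.div_le_self (x / p) p)
        have hp1 : (1 : ℝ) < p := by exact_mod_cast hp.one_lt
        have h3 : 0 < (p : ℝ) - 1 := by linarith
        have h4 : (p : ℝ)⁻¹ * SS (insert p P) (x / p) ≤ ((p : ℝ) - 1)⁻¹ * GG P (x / p) := by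
          calc (p : ℝ)⁻¹ * SS (insert p P) (x / p) ≤
              (p : ℝ)⁻¹ * (GG P (x / p) + ((p : ℝ) - 1)⁻¹ * GG P (x / p)) := by
                refine mul_le_mul_of_nonneg_left (h1.trans ?_) (by positivity)
                have := mul_le_mul_of_nonneg_left h2 (inv_pos.2 h3).le
                linarith
            _ = ((p : ℝ) - 1)⁻¹ * GG P (x / p) := by
                have : (p : ℝ) ≠ 0 := by linarith
                field_simp
                ring
        linarith [ih' x]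

theorem selS_ge2 {a q N R : ℕ} (hq : 1 ≤ q) :
    ((Nat.totient q : ℝ) / q) * Real.log ((R : ℝ) + 1) ≤ selS (apSieve a q N R) R := by
  classical
  refine (Pool.Agent.H95R2.Leh.ApS.coprime_sum_ge hq R).trans ?_
  set P : Finset ℕ := (Finset.Icc 1 R).filter (fun p => p.Prime ∧ ¬ p ∣ q) with hPdef
  have e1 : ∑ n ∈ (Finset.Icc 1 R).filter (fun n => Nat.Coprime n q), (n : ℝ)⁻¹ = SS P R := by
    unfold SS
    apply Finset.sum_congr _ fun _ _ => rfl
    ext n
    simp only [Finset.mem_filter, Finset.mem_Icc]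
    constructor
    · rintro ⟨h1, h2⟩
      refine ⟨h1, fun p hp => ?_⟩
      rw [Nat.mem_primeFactors] at hp
      rw [hPdef, Finset.mem_filter, Finset.mem_Icc]
      refine ⟨⟨hp.1.one_lt.le, (Nat.le_of_dvd (by omega) hp.2.1).trans h1.2⟩, hp.1, fun h => ?_⟩
      have := Nat.dvd_gcd hp.2.1 h
      rw [h2] at this
      exact hp.1.one_lt.ne' (Nat.dvd_one.mp this)
    · rintro ⟨h1, h2⟩
      refine ⟨h1, ?_⟩
      rw [Nat.coprime_iff_gcd_eq_one]
      by_contra hne
      obtain ⟨p, hp, hpd⟩ := Nat.exists_prime_and_dvd hne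
      have h3 : p ∈ P := h2 (Nat.mem_primeFactors.2 ⟨hp, hpd.trans (Nat.gcd_dvd_left _ _), by omega⟩)
      rw [hPdef, Finset.mem_filter] at h3
      exact h3.2.2 (hpd.trans (Nat.gcd_dvd_right _ _))
  rw [e1]
  refine (SS_le_GG P (fun p hp => (Finset.mem_filter.1 hp).2.1) R).trans ?_
  unfold GG selS
  have h1 : ∀ l ∈ (Finset.Icc 1 R).filter (fun l => Squarefree l ∧ l.primeFactors ⊆ P),
      ((Nat.totient l : ℕ) : ℝ)⁻¹ ≤ (apSieve a q N R).selbergTerms l := by
    intro l hl
    rw [Finset.mem_filter, Finset.mem_Icc] at hl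
    rw [BoundingSieve.selbergTerms_apply]
    change ((Nat.totient l : ℕ) : ℝ)⁻¹ ≤ (l : ℝ)⁻¹ * ∏ p ∈ l.primeFactors, (1 - (p : ℝ)⁻¹)⁻¹
    apply le_of_eq
    have h2 : (Nat.totient l : ℝ) = l * ∏ p ∈ l.primeFactors, (1 - (p : ℝ)⁻¹) := by
      have h3 := congrArg (fun z : ℚ => (z : ℝ)) (Nat.totient_eq_mul_prod_factors l)
      push_cast at h3
      exact h3
    rw [h2, mul_inv, Finset.prod_inv_distrib]
  refine (Finset.sum_le_sum h1).trans ?_
  apply Finset.sum_le_sum_of_subset_of_nonneg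
  · intro l hl
    rw [Finset.mem_filter, Finset.mem_Icc] at hl
    rw [Finset.mem_filter, Nat.mem_divisors]
    refine ⟨⟨dvd_PP_of_squarefree hl.2.1 hl.1.2 ?_, (PP_squarefree q R).ne_zero⟩,
      by exact_mod_cast hl.1.2⟩
    rw [Nat.coprime_iff_gcd_eq_one]
    by_contra hne
    obtain ⟨p, hp, hpd⟩ := Nat.exists_prime_and_dvd hne
    have h3 : p ∈ P := hl.2.2 (Nat.mem_primeFactors.2
      ⟨hp, hpd.trans (Nat.gcd_dvd_left _ _), by omega⟩)
    rw [hPdef, Finset.mem_filter] at h3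
    exact h3.2.2 (hpd.trans (Nat.gcd_dvd_right _ _))
  · intro l hl _
    rw [Finset.mem_filter, Nat.mem_divisors] at hl
    exact (BoundingSieve.selbergTerms_pos (s := apSieve a q N R) hl.1.1).le

theorem bt_core {a q N R : ℕ} (hq : 1 ≤ q) (hR : 1 ≤ R) :
    (((Finset.range N).filter (fun k => (a + k * q).Prime)).card : ℝ) ≤
      ((q : ℝ) / Nat.totient q) * N / Real.log ((R : ℝ) + 1) + (R : ℝ) ^ 4 + (R + 1) := by
  have hR' : (1 : ℝ) ≤ R := by exact_mod_cast hR
  have hq' : (0 : ℝ) < q := by exact_mod_cast hq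
  have ht' : (0 : ℝ) < Nat.totient q := by exact_mod_cast Nat.totient_pos.2 hq
  have h1 := sifted_ge (a := a) (q := q) (N := N) (R := R) hq
  have h2 := siftedSum_le_selberg (apSieve a q N R) (R : ℝ) hR' 1 zero_le_one
    (fun d hd => apSieve_rem hq hd)
  have h3 := selS_ge2 (a := a) (N := N) (R := R) hq
  have hlog : 0 < Real.log ((R : ℝ) + 1) := Real.log_pos (by linarith)
  have h4 : (apSieve a q N R).totalMass / selS (apSieve a q N R) R ≤
      ((q : ℝ) / Nat.totient q) * N / Real.log ((R : ℝ) + 1) := by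
    change (N : ℝ) / _ ≤ _
    have : (N : ℝ) / selS (apSieve a q N R) R ≤
        (N : ℝ) / (((Nat.totient q : ℝ) / q) * Real.log ((R : ℝ) + 1)) := by
      apply div_le_div_of_nonneg_left (by positivity) (by positivity) h3
    refine this.trans (le_of_eq ?_)
    field_simp
  have h5 : (∑ d ∈ (Nat.divisors (apSieve a q N R).prodPrimes).filter
      (fun d : ℕ => (d : ℝ) ≤ R), ((apSieve a q N R).nu d)⁻¹) ≤ (R : ℝ) ^ 2 := by
    have h6 : (Nat.divisors (apSieve a q N R).prodPrimes).filter (fun d : ℕ => (d : ℝ) ≤ R) ⊆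
        Finset.Icc 1 R := by
      intro d hd
      rw [Finset.mem_filter, Nat.mem_divisors] at hd
      rw [Finset.mem_Icc]
      refine ⟨Nat.pos_of_ne_zero (ne_zero_of_dvd_ne_zero hd.1.2 hd.1.1),
        by exact_mod_cast hd.2⟩
    calc (∑ d ∈ (Nat.divisors (apSieve a q N R).prodPrimes).filter
          (fun d : ℕ => (d : ℝ) ≤ R), ((apSieve a q N R).nu d)⁻¹)
        = ∑ d ∈ (Nat.divisors (apSieve a q N R).prodPrimes).filter
          (fun d : ℕ => (d : ℝ) ≤ R), (d : ℝ) := by
          apply Finset.sum_congr rfl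
          intro d _
          change ((d : ℝ)⁻¹)⁻¹ = d
          rw [inv_inv]
      _ ≤ ∑ d ∈ Finset.Icc 1 R, (d : ℝ) :=
          Finset.sum_le_sum_of_subset_of_nonneg h6 (fun _ _ _ => by positivity)
      _ ≤ ∑ d ∈ Finset.Icc 1 R, (R : ℝ) := by
          apply Finset.sum_le_sum
          intro d hd
          exact_mod_cast (Finset.mem_Icc.mp hd).2
      _ = (R : ℝ) ^ 2 := by simp; ring
  have h7 : 0 ≤ (∑ d ∈ (Nat.divisors (apSieve a q N R).prodPrimes).filter
      (fun d : ℕ => (d : ℝ) ≤ R), ((apSieve a q N R).nu d)⁻¹) := by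
    apply Finset.sum_nonneg
    intro d _
    change 0 ≤ ((d : ℝ)⁻¹)⁻¹
    positivity
  have h8 : (∑ d ∈ (Nat.divisors (apSieve a q N R).prodPrimes).filter
      (fun d : ℕ => (d : ℝ) ≤ R), ((apSieve a q N R).nu d)⁻¹) ^ 2 ≤ (R : ℝ) ^ 4 := by
    calc _ ≤ ((R : ℝ) ^ 2) ^ 2 := by gcongr
      _ = (R : ℝ) ^ 4 := by ring
  linarith

theorem ev_log : ∃ N0 : ℕ, ∀ N : ℕ, N0 ≤ N → 3 ≤ Real.log N ∧
    Real.log (Real.log N) ≤ Real.log N / 68 := by
  have h1 : Filter.Tendsto (fun N : ℕ => Real.log (N : ℝ)) Filter.atTop Filter.atTop :=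
    Real.tendsto_log_atTop.comp tendsto_natCast_atTop_atTop
  have h2 : ∀ᶠ y : ℝ in Filter.atTop, Real.log y ≤ y / 68 := by
    have h3 := Real.isLittleO_log_id_atTop.bound (show (0 : ℝ) < 1 / 68 by norm_num)
    filter_upwards [h3, Filter.eventually_ge_atTop (1 : ℝ)] with y hy hy1
    rw [Real.norm_of_nonneg (Real.log_nonneg hy1), id, Real.norm_of_nonneg (by linarith)] at hy
    linarith
  have h4 := (h1.eventually h2).and (h1.eventually (Filter.eventually_ge_atTop (3 : ℝ)))
  obtain ⟨N0, hN0⟩ := Filter.eventually_atTop.1 h4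
  exact ⟨N0, fun N hN => ⟨(hN0 N hN).2, (hN0 N hN).1⟩⟩

end BT4P

/-- task B-BT4 -/
theorem bt4 : BT4 := by
  obtain ⟨N0, hN0⟩ := BT4P.ev_log
  refine ⟨N0, fun a q N hq hN => ?_⟩
  obtain ⟨hy3, hyl⟩ := hN0 N hN
  have hNpos : (0 : ℝ) < N := by
    rcases Nat.eq_zero_or_pos N with h | h
    · subst h
      simp at hy3
      linarith
    · exact_mod_cast h
  obtain ⟨y, hy⟩ : ∃ y, y = Real.log (N : ℝ) := ⟨_, rfl⟩
  rw [← hy] at hy3 hyl ⊢
  have hy0 : 0 < y := by linarith
  obtain ⟨x, hx⟩ : ∃ x, x = Real.exp (y / 4) / y := ⟨_, rfl⟩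
  have hxpos : 0 < x := by rw [hx]; positivity
  have hlogx : Real.log x = y / 4 - Real.log y := by
    rw [hx, Real.log_div (Real.exp_pos _).ne' hy0.ne', Real.log_exp]
  have hlogx2 : 4 / 17 * y ≤ Real.log x := by
    rw [hlogx]
    linarith
  have hx1 : 1 ≤ x := by
    by_contra hc
    push Not at hc
    have := Real.log_neg hxpos hc
    linarith
  have hR : 1 ≤ ⌊x⌋₊ := Nat.floor_pos.mpr hx1
  have hfl : (⌊x⌋₊ : ℝ) ≤ x := Nat.floor_le hxpos.le
  have hfl2 : x < (⌊x⌋₊ : ℝ) + 1 := Nat.lt_floor_add_one x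
  have h := BT4P.bt_core (a := a) (N := N) (R := ⌊x⌋₊) hq hR
  have hx4 : x ^ 4 = N / y ^ 4 := by
    rw [hx, div_pow, ← Real.exp_nat_mul]
    congr 1
    push_cast
    rw [show (4 : ℝ) * (y / 4) = y by ring, hy, Real.exp_log hNpos]
  have ht' : (0 : ℝ) < Nat.totient q := by exact_mod_cast Nat.totient_pos.2 hq
  have hqt : (1 : ℝ) ≤ (q : ℝ) / Nat.totient q := by
    rw [le_div_iff₀ ht', one_mul]
    exact_mod_cast Nat.totient_le q
  have hlog2 : 4 / 17 * y ≤ Real.log ((⌊x⌋₊ : ℝ) + 1) :=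
    hlogx2.trans (Real.log_le_log hxpos hfl2.le)
  have h1 : ((q : ℝ) / Nat.totient q) * N / Real.log ((⌊x⌋₊ : ℝ) + 1) ≤
      17 / 4 * ((q : ℝ) / Nat.totient q) * (N / y) := by
    have h2 : ((q : ℝ) / Nat.totient q) * N / Real.log ((⌊x⌋₊ : ℝ) + 1) ≤
        ((q : ℝ) / Nat.totient q) * N / (4 / 17 * y) :=
      div_le_div_of_nonneg_left (by positivity) (by positivity) hlog2
    refine h2.trans (le_of_eq ?_)
    field_simp
  have hR1 : (1 : ℝ) ≤ (⌊x⌋₊ : ℝ) := by exact_mod_cast hR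
  have h3 : (⌊x⌋₊ : ℝ) ^ 4 + ((⌊x⌋₊ : ℝ) + 1) ≤ 3 * (N / y ^ 4) := by
    rw [← hx4]
    have h4 : (⌊x⌋₊ : ℝ) ^ 4 ≤ x ^ 4 := pow_le_pow_left₀ (by positivity) hfl 4
    have h5 : (⌊x⌋₊ : ℝ) ≤ (⌊x⌋₊ : ℝ) ^ 4 := le_self_pow₀ hR1 (by norm_num)
    linarith
  have h6 : 3 * (N / y ^ 4) ≤ 1 / 4 * (N / y) := by
    have h7 : 3 * ((N : ℝ) / y ^ 4) = (3 / y ^ 3) * (N / y) := by
      field_simp
    rw [h7]
    refine mul_le_mul_of_nonneg_right ?_ (by positivity)
    rw [div_le_iff₀ (by positivity)]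
    have : (3 : ℝ) ^ 3 ≤ y ^ 3 := pow_le_pow_left₀ (by norm_num) hy3 3
    linarith
  have h8 : 1 / 4 * ((N : ℝ) / y) ≤ 1 / 4 * (((q : ℝ) / Nat.totient q) * (N / y)) := by
    refine mul_le_mul_of_nonneg_left ?_ (by norm_num)
    exact le_mul_of_one_le_left (by positivity) hqt
  have h9 : 9 / 2 * ((q : ℝ) / Nat.totient q) * (N / y) =
      17 / 4 * ((q : ℝ) / Nat.totient q) * (N / y) +
        1 / 4 * (((q : ℝ) / Nat.totient q) * (N / y)) := by ring
  rw [h9]
  linarith

end Pool.Agent.H307R2.OP
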